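import Pool.Agent.Results.MP_7ad46c_co.DensityOne
import Pool.Agent.Run7.h823.SG.Lin
import Pool.Agent.Run7.h823.WF.PN
import Pool.Agent.Run7.h823.WF.Ex

/-!
# The restricted 3-critical number of cyclic groups: orders in sparse families of residues

The question is whether the restricted `3`-critical number `chi n` of the cyclic group of order `n ≥ 16` has the conjectured
value, which depends on the smallest prime divisor `p ≡ 2` modulo `3` of `n`. The starting result shows that this is so for almost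
all `n`. Such a statement says nothing about sparse sets of `n`. Here `n` is near the value of a linear form at members of very
sparse FINITE sets of integers which are defined modulo a large integer, such as the first `m ^ ε` terms of a linear
recurrence modulo a prime `m`.

Let `y_i`, `i ∈ s`, be a finite family of vectors of residues modulo an integer `q` with small Fourier coefficients: for all
`h ≠ 0` modulo `q` we have `|∑ e(h·y_i / q)| ≤ δ (log q) ^ (-r) |s|`, where `r` is the number of the coordinates. We consider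
the integers `n` near `ℓ(c₀ + y_i)` (least residues), for linear forms `ℓ ≠ 0` with integral coefficients and any integral
vector `c₀`.

**Theorem.** For all `r`, `B` and `ε > 0` there is `δ > 0` such that for all `q ≥ 1 / δ`, ALL such families
and ALL `c₀` the following holds for all but `ε |s|` of the `i`, SIMULTANEOUSLY for ALL linear forms `ℓ ≠ 0` with
coefficients at most `B` in absolute value and ALL integers `1 ≤ n` with `|n - ℓ(c₀ + y_i)| ≤ B`: `chi n` has the
conjectured value.

The family can be very sparse: examples (of vectors with `r` coordinates) are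

* the values `(u_1(n), …, u_r(n))`, `n < N`, of `r` linear recurrences modulo a prime `m` with linearly independent vectors
  of coefficients, as soon as `N ≥ m ^ ε` and the roots and their quotients have orders `≥ m ^ ε`;
* the vectors `(x_1 b_1 ^ n, …, x_r b_r ^ n)`, `n < N`, `N ≥ m ^ ε`, for fixed different integers `b_j ≥ 2` and
  all `x_j ≠ 0`, modulo all but `C X ^ ε` of the primes `m ≤ X`.

In these examples only `m ^ ε` of the `m ^ r` vectors of the box occur.

From Mathlib: `ZMod.stdAddChar`: the additive character `j ↦ exp (2 π i j / q)` of the integers modulo `q`; `ZMod.val`: the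
least residue.

The proof: for every prime `p ≡ 2` modulo `3` the value is the conjectured one for all large `n` whose least prime divisor
which is `2` modulo `3` is `p` (starting file). By Dirichlet's theorem the vectors `c` such that some integer near `ℓ(c)` is an
exception form a pronull set (`Pool.Agent.Run7.h823.SG.windows`); families with small Fourier coefficients rarely meet
pronull sets, since they are equidistributed modulo every fixed integer (`Pool.Agent.Run7.h823.WF.PN`); the Fourier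
coefficients of short recurrences are estimated by the method of Bourgain, Glibichuk and Konyagin (`Pool.Agent.Run7.h823.BK`).
-/

set_option autoImplicit false

namespace Pool.Agent.Results.MP_7ad46c_co.ResidueVectors

open Finset (range)

/-- The Fourier coefficients of the vectors of residues `y i`, `i ∈ s`, modulo `q` at the nonzero frequencies are at most
`η` times the number of the vectors: `|∑ i ∈ s, e(h·y_i / q)| ≤ η |s|` for all vectors `h ≠ 0` modulo `q`. -/
def Flat {τ ι : Type} [Fintype ι] (q : ℕ) [NeZero q] (η : ℝ) (s : Finset τ) (y : τ → ι → ZMod q) : Prop :=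
  ∀ h : ι → ZMod q, h ≠ 0 → ‖∑ i ∈ s, (ZMod.stdAddChar (∑ j, h j * y i j) : ℂ)‖ ≤ η * s.card

/-- The integral vector `c₀ + y_i`, with the least residues `0 ≤ y_i < q`. -/
def vec {τ ι : Type} {q : ℕ} (y : τ → ι → ZMod q) (c₀ : ι → ℤ) (i : τ) (j : ι) : ℤ := c₀ j + ((y i j).val : ℕ)

/-- every element of `ZMod n` is a sum of three pairwise distinct elements of `A` -/
def Full (n : ℕ) (A : Finset (ZMod n)) : Prop :=
  ∀ x : ZMod n, ∃ a ∈ A, ∃ b ∈ A, ∃ c ∈ A, a ≠ b ∧ a ≠ c ∧ b ≠ c ∧ a + b + c = x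

/-- the restricted `3`-critical number of the cyclic group of order `n` -/
noncomputable def chi (n : ℕ) : ℕ :=
  sInf {m : ℕ | ∀ A : Finset (ZMod n), A.card = m → Full n A}

/-- `p` is the smallest prime divisor of `n` that is `2` modulo `3` -/
def LeastTwo (p n : ℕ) : Prop :=
  p.Prime ∧ p % 3 = 2 ∧ p ∣ n ∧ ∀ q : ℕ, q.Prime → q % 3 = 2 → q ∣ n → p ≤ q

/-- `v` is the value `f n` of the problem -/
def IsValue (n v : ℕ) : Prop :=
  (∀ p : ℕ, LeastTwo p n →
    (n = p → v = (p + 1) * n / (3 * p) + 3) ∧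
    (n = 3 * p → v = (p + 1) * n / (3 * p) + 2) ∧
    (n ≠ p → n ≠ 3 * p → v = (p + 1) * n / (3 * p) + 1)) ∧
  ((∀ p : ℕ, ¬ LeastTwo p n) →
    (9 ∣ n → v = n / 3 + 4) ∧ (¬ 9 ∣ n → v = n / 3 + 3))

/-- For all `n ≥ 1` near the values of all small linear forms at the integral vector `c` the restricted `3`-critical number has
the conjectured value: for all linear forms `ℓ ≠ 0` with coefficients `|lam_j| ≤ B` and all `n ≥ 1` with `|n - ℓ(c)| ≤ B`. -/
def ValuesNear {r : ℕ} (B : ℕ) (c : Fin r → ℤ) : Prop :=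
  ∀ lam : Fin r → ℤ, lam ≠ 0 → (∀ j, |lam j| ≤ B) →
    ∀ n : ℕ, 1 ≤ n → |(n : ℤ) - ∑ j, lam j * c j| ≤ B → IsValue n (chi n)

theorem thin : Pool.Agent.Run7.h823.SG.Thin (fun x => ∃ n : ℕ, 1 ≤ n ∧ (n : ℤ) = x ∧ ¬ IsValue n (chi n)) := by
  have hu : IsUnit (2 : ZMod 3) := by decide
  refine Pool.Agent.Run7.h823.SG.crit2 _ (fun q => (q : ZMod 3) = 2) (fun _ => 0)
    (Pool.Agent.H771R2.Dens.big_ap hu) ?_ ?_
  · rintro x ⟨n, -, rfl, -⟩
    exact Int.natCast_nonneg n
  have h0 : ∀ p : ℕ, ∃ N : ℕ, ∀ n : ℕ, N ≤ n → LeastTwo p n → IsValue n (chi n) :=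
    Pool.Agent.Results.MP_7ad46c_co.DensityOne.result.1
  choose N hN using h0
  intro T
  refine ⟨(Finset.range (T + 1)).sup N, ?_⟩
  rintro x ⟨n, hn, rfl, hv⟩ hx q hqT hq hq3 hnq
  have h1 : q % 3 = 2 := by
    have h2 : ((q : ℕ) : ZMod 3) = ((2 : ℕ) : ZMod 3) := by simpa using hq3
    rw [ZMod.natCast_eq_natCast_iff'] at h2
    omega
  have h3 : q ∣ n := by
    rw [← ZMod.natCast_eq_zero_iff]
    simpa using hnq
  obtain ⟨p, hp, hpq⟩ := Pool.Agent.Results.MP_7ad46c_co.DensityOne.exists_least hq h1 h3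
  apply hv
  refine hN p n ?_ hp
  have h4 : N p ≤ (Finset.range (T + 1)).sup N := Finset.le_sup (Finset.mem_range.2 (by omega))
  have h5 : (Finset.range (T + 1)).sup N ≤ n := by exact_mod_cast hx
  exact h4.trans h5

open Pool.Agent.N24.RW (ProNull) in
theorem null (r B : ℕ) : ProNull {c : Fin r → ℤ | ¬ ValuesNear B c} := by
  refine Pool.Agent.N24.RW.Clo.mono ?_ (Pool.Agent.Run7.h823.SG.windows thin r B)
  intro c hc
  by_contra hcon
  apply hc
  intro lam hl hlB n hn hnf
  by_contra hv
  exact hcon ⟨lam, hl, hlB, n, hnf, n, hn, rfl, hv⟩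

/-- **Theorem.** (1) For all `r`, `B` and `ε > 0` there is `δ > 0` such that for all `q ≥ 1 / δ`, all families of vectors of
residues modulo `q` with Fourier coefficients at most `δ (log q) ^ (-r) |s|` at the nonzero frequencies and all integral
vectors `c₀` all but `ε |s|` of the members `c₀ + y_i` have the property `ValuesNear B`.

(2) Examples: short linear recurrences. (3) Examples: the first powers of fixed integers, modulo all but `C X ^ ε` of the
primes `m ≤ X`. (The Fourier coefficients are even at most `m ^ (-β) N`.) -/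
theorem result :
    (∀ (r B : ℕ) (ε : ℝ), 0 < ε → ∃ δ : ℝ, 0 < δ ∧ ∀ (q : ℕ) [NeZero q], 1 / δ ≤ q →
      ∀ (τ : Type) (s : Finset τ) (y : τ → Fin r → ZMod q), Flat q (δ / Real.log q ^ r) s y →
      ∀ c₀ : Fin r → ℤ, ({i : τ | i ∈ s ∧ ¬ ValuesNear B (vec y c₀ i)}.ncard : ℝ) ≤ ε * s.card) ∧
    (∀ (k : ℕ) (ε : ℝ), 0 < ε → ∃ β : ℝ, 0 < β ∧ ∃ m₀ : ℕ, ∀ (m : ℕ) [Fact m.Prime], m₀ ≤ m →
      ∀ (ι : Type) [Fintype ι] (c : ι → Fin k → ZMod m) (g : Fin k → (ZMod m)ˣ) (N : ℕ), LinearIndependent (ZMod m) c →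
      (∀ i, (m : ℝ) ^ ε ≤ orderOf (g i)) → (∀ i j, i ≠ j → (m : ℝ) ^ ε ≤ orderOf (g i / g j)) → (m : ℝ) ^ ε ≤ N →
      Flat m ((m : ℝ) ^ (-β)) (range N) (fun n j => ∑ i, c j i * (g i : ZMod m) ^ n)) ∧
    (∀ (ι : Type) [Fintype ι] (ε : ℝ), 0 < ε → ∃ β : ℝ, 0 < β ∧ ∀ b : ι → ℕ, (∀ j, 2 ≤ b j) → Function.Injective b →
      ∃ C : ℝ, ∀ X : ℕ, 1 ≤ X → ∀ Q : Finset ℕ,
      (∀ m ∈ Q, m ≤ X ∧ ∃ _ : Fact m.Prime, ¬ ∀ N : ℕ, (m : ℝ) ^ ε ≤ N → ∀ x : ι → ZMod m, (∀ j, x j ≠ 0) →
        Flat m ((m : ℝ) ^ (-β)) (range N) (fun n j => x j * (b j : ZMod m) ^ n)) →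
      (Q.card : ℝ) ≤ C * (X : ℝ) ^ ε) := by
  refine ⟨?_, fun k ε hε => Pool.Agent.Run7.h823.WF.flat_rec' k hε,
    fun ι _ ε hε => Pool.Agent.Run7.h823.WF.flat_pow' ι hε⟩
  intro r B ε hε
  obtain ⟨δ, hδ, h⟩ := Pool.Agent.Run7.h823.WF.PN.rare _ (null r B) hε
  refine ⟨δ, hδ, fun q _ hq τ s y hf c₀ => h τ q hq s y ?_ c₀⟩
  rw [Fintype.card_fin]
  exact hf

end Pool.Agent.Results.MP_7ad46c_co.ResidueVectors
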